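import Pool.Agent.Lib.MP_1a91b9_nuT.D6.Defs
import Pool.Agent.Lib.MP_1a91b9_nuT.S6.Un2

/-!
# D6, file KQ: elementary facts on `K` at a prime number `q`
-/

set_option autoImplicit false

namespace Pool.Agent.Lib.MP_1a91b9_nuT.Ell

variable [CD]

open NumberField

theorem kq_nat {k q : ℕ} (h : k.Coprime q) : IsCoprime (k : 𝓞 K) (q : 𝓞 K) := by
  have h1 := (Nat.isCoprime_iff_coprime.2 h).map (Int.castRingHom (𝓞 K))
  simpa using h1

theorem kq_natF {F : Type*} [Field F] [NumberField F] {k q : ℕ} (h : k.Coprime q) :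
    IsCoprime (k : 𝓞 F) (q : 𝓞 F) := by
  have h1 := (Nat.isCoprime_iff_coprime.2 h).map (Int.castRingHom (𝓞 F))
  simpa using h1

theorem kq_odd' {q : ℕ} (a : 𝓞 K) (k : ℕ) (hk : k.Coprime q) (c : 𝓞 K) (h : a * c = k) :
    IsCoprime a (q : 𝓞 K) := by
  have h1 := kq_nat hk
  rw [← h] at h1
  exact h1.of_mul_left_left

/-- The norm of an element coprime to `q`. -/
theorem kq_norm {q : ℕ} (a : 𝓞 K) (ha : IsCoprime a (q : 𝓞 K)) (k : ℕ)
    (hk : (k : ℝ) = ‖embK (a : K)‖ ^ 2) : k.Coprime q := by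
  obtain ⟨u, w, huw⟩ := ha
  obtain ⟨n, hn, -⟩ := kf_normInt u
  obtain ⟨r, s, rfl⟩ := kf_repr w
  have h1 : embK ((u * a : 𝓞 K) : K) = ((1 - r * q : ℤ) : ℂ) + ((-s * q : ℤ) : ℂ) * zt := by
    rw [← kf_emb]
    congr 2
    push_cast
    linear_combination huw
  have h2 : ((n * k : ℕ) : ℝ) = (((1 - r * q) ^ 2 + CD.tr * (1 - r * q) * (-s * q) +
      CD.nm * (-s * q) ^ 2 : ℤ) : ℝ) := by
    rw [← kf_norm, ← h1]
    have e : ((u * a : 𝓞 K) : K) = (u : K) * (a : K) := rfl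
    rw [e, map_mul, norm_mul, mul_pow, ← hn, ← hk]
    push_cast
    ring
  have h3 : ((n * k : ℕ) : ℤ) = (1 - r * q) ^ 2 + CD.tr * (1 - r * q) * (-s * q) +
      CD.nm * (-s * q) ^ 2 := by
    exact_mod_cast h2
  rw [← Nat.isCoprime_iff_coprime]
  refine ⟨n, 2 * r - r ^ 2 * q + CD.tr * s - CD.tr * r * s * q - CD.nm * s ^ 2 * q, ?_⟩
  push_cast at h3
  linear_combination h3

theorem kq_odd {q : ℕ} (a : 𝓞 K) (ha : IsCoprime a (q : 𝓞 K)) :
    ∃ (c : 𝓞 K) (k : ℕ), k.Coprime q ∧ a * c = k ∧ (k : ℝ) = ‖embK (a : K)‖ ^ 2 := by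
  obtain ⟨k, hk, c, hc⟩ := kf_normInt a
  exact ⟨c, k, kq_norm a ha k hk, hc.symm, hk⟩

theorem kq_zero {q : ℕ} (hq : q ≠ 1) : ¬ IsCoprime (0 : 𝓞 K) (q : 𝓞 K) := by
  intro h
  obtain ⟨c, k, hk, -, h2⟩ := kq_odd 0 h
  have h3 : (k : ℝ) = 0 := by
    rw [h2]
    simp
  have h4 : k = 0 := by exact_mod_cast h3
  rw [h4, Nat.coprime_zero_left] at hk
  exact hq hk

theorem kq_ne {q : ℕ} (hq : q ≠ 1) {a : 𝓞 K} (ha : IsCoprime a (q : 𝓞 K)) : a ≠ 0 := by
  rintro rfl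
  exact kq_zero hq ha

theorem kq_mem {q : ℕ} (A : ValuationSubring ℂ) (hA : Pl q A) (x : ℂ) (d : ℕ) (hd : d.Coprime q)
    (hx : IsIntegral ℤ ((d : ℂ) * x)) : x ∈ A := by
  have h2 := kf_int A _ hx
  rw [← A.valuation_le_one_iff] at h2 ⊢
  rwa [map_mul, v_cop hA hd, one_mul] at h2

theorem kq_intA (A : ValuationSubring ℂ) (b : 𝓞 K) : embK (b : K) ∈ A :=
  kf_int A _ (b.isIntegral_coe.map embK)

/-- Elements of `𝓞 K` coprime to `q` are units of `A`. -/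
theorem kq_unitA {q : ℕ} (A : ValuationSubring ℂ) (hA : Pl q A) (a : 𝓞 K)
    (ha : IsCoprime a (q : 𝓞 K)) :
    embK (a : K) ∈ A ∧ (embK (a : K))⁻¹ ∈ A ∧ embK (a : K) ≠ 0 := by
  obtain ⟨c, k, hk, hc, -⟩ := kq_odd a ha
  have h4 : A.valuation (k : ℂ) = 1 := v_cop hA hk
  have h5 : embK (a : K) * embK (c : K) = k := by
    have h := kf_castN k
    rw [← hc, RingOfIntegers.coe_eq_algebraMap, map_mul, map_mul] at h
    exact h
  have h1 := (A.valuation_le_one_iff _).2 (kq_intA A a)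
  have h2 := (A.valuation_le_one_iff _).2 (kq_intA A c)
  have h6 : A.valuation (embK (a : K)) = 1 := by
    refine le_antisymm h1 ?_
    rw [← h5, map_mul] at h4
    calc (1 : A.ValueGroup) = A.valuation (embK (a : K)) * A.valuation (embK (c : K)) := h4.symm
      _ ≤ A.valuation (embK (a : K)) * 1 := mul_le_mul' le_rfl h2
      _ = _ := mul_one _
  refine ⟨kq_intA A a, ?_, ?_⟩
  · rw [← A.valuation_le_one_iff, map_inv₀, h6, inv_one]
  · intro h
    rw [h, map_zero] at h6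
    exact zero_ne_one h6

/-- The conjugates of elements of `𝓞 K` coprime to `q` are units of `A`. -/
theorem kq_conj {q : ℕ} (A : ValuationSubring ℂ) (hA : Pl q A) (a : 𝓞 K)
    (ha : IsCoprime a (q : 𝓞 K)) :
    (starRingEnd ℂ) (embK (a : K)) ∈ A ∧ ((starRingEnd ℂ) (embK (a : K)))⁻¹ ∈ A ∧
      (starRingEnd ℂ) (embK (a : K)) ≠ 0 := by
  obtain ⟨c, k, hk, hac, -⟩ := kq_odd a ha
  have hint : ∀ x : 𝓞 K, IsIntegral ℤ ((starRingEnd ℂ) (embK (x : K))) := fun x =>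
    map_isIntegral_int (starRingEnd ℂ) (map_isIntegral_int (embK : K →+* ℂ) x.isIntegral_coe)
  have h1 : (starRingEnd ℂ) (embK (a : K)) * (starRingEnd ℂ) (embK (c : K)) = (k : ℂ) := by
    rw [← map_mul, ← map_mul]
    have h2 : (a : K) * (c : K) = ((k : ℕ) : K) := by
      have h3 := congrArg (fun x : 𝓞 K => (x : K)) hac
      simpa using h3
    rw [h2, map_natCast, map_natCast]
  have hk0 : (k : ℂ) ≠ 0 := by
    intro h
    have h4 : A.valuation (k : ℂ) = 1 := v_cop hA hk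
    rw [h, map_zero] at h4
    exact zero_ne_one h4
  have hne : (starRingEnd ℂ) (embK (a : K)) ≠ 0 := by
    intro h0
    rw [h0, zero_mul] at h1
    exact hk0 h1.symm
  refine ⟨kf_int A _ (hint a), ?_, hne⟩
  refine kq_mem A hA _ k hk ?_
  have h2 : (k : ℂ) * ((starRingEnd ℂ) (embK (a : K)))⁻¹ = (starRingEnd ℂ) (embK (c : K)) := by
    rw [← h1, mul_comm, ← mul_assoc, inv_mul_cancel₀ hne, one_mul]
  rw [h2]
  exact hint c

end Pool.Agent.Lib.MP_1a91b9_nuT.Ell
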