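import Pool.Agent.Lib.MP_1a91b9_nuT.D6.KQ

/-!
# D6, file Un: units congruent to 1 modulo a general modulus (port of `S6.Un2`)

The modulus `𝔪` is arbitrary; the hypothesis `𝔪 ≤ span {3}` of `S6` is replaced by its two
consequences: the units congruent to `1` modulo `𝔪` have relative norm `1` and are torsion free.
-/

set_option autoImplicit false

namespace Pool.Agent.Lib.MP_1a91b9_nuT.Ell

variable [CD]

open NumberField

universe u

variable {F : Type u} [Field F] [NumberField F] [Algebra K F]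

open NumberField.Units NumberField.Units.dirichletUnitTheorem Module

/-- A unit of finite order in `V` is `1`. -/
theorem un2_fin (𝔪 : Ideal (𝓞 F)) (htor : ∀ v ∈ unV 𝔪, ∀ k : ℕ, 0 < k → v ^ k = 1 → v = 1)
    (v : (𝓞 F)ˣ) (hv : v ∈ unV 𝔪) (h : v ∈ torsion F) : v = 1 := by
  have h1 : IsOfFinOrder v := (CommGroup.mem_torsion v).1 h
  obtain ⟨n, hn, hn1⟩ := isOfFinOrder_iff_pow_eq_one.1 h1
  exact htor v hv n hn hn1

theorem un2_q_inj (𝔪 : Ideal (𝓞 F))
    (htor : ∀ v ∈ unV 𝔪, ∀ k : ℕ, 0 < k → v ^ k = 1 → v = 1) :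
    Function.Injective (un2_q 𝔪) := by
  rw [injective_iff_map_eq_zero]
  intro v hv
  have h1 : logEmbedding F (Additive.ofMul ((v.toMul : unV 𝔪) : (𝓞 F)ˣ)) = 0 :=
    congrArg Subtype.val hv
  rw [logEmbedding_eq_zero_iff] at h1
  have h2 := un2_fin 𝔪 htor _ (v.toMul : unV 𝔪).2 h1
  have h4 : (v.toMul : unV 𝔪) = 1 := Subtype.ext h2
  exact h4

theorem un2_rank {m : ℕ} (σ : Fin (m + 1) → (F →ₐ[K] ℂ)) (hσ : Function.Bijective σ)
    (𝔪 : Ideal (𝓞 F)) (hm : 𝔪 ≠ ⊥)
    (htor : ∀ v ∈ unV 𝔪, ∀ k : ℕ, 0 < k → v ^ k = 1 → v = 1) :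
    Module.Finite ℤ (Additive (unV 𝔪)) ∧ Module.Free ℤ (Additive (unV 𝔪)) ∧
      finrank ℤ (Additive (unV 𝔪)) = m := by
  have hf := un2_q_inj 𝔪 htor
  have h0 : Module.Finite ℤ (unitLattice F) := Module.Finite.of_basis (basisUnitLattice F)
  have h0' : IsNoetherian ℤ (unitLattice F) := isNoetherian_of_isNoetherianRing_of_finite ℤ _
  have h1 : Module.Finite ℤ (Additive (unV 𝔪)) := Module.Finite.of_injective (un2_q 𝔪) hf
  have h2 : Module.IsTorsionFree ℤ (Additive (unV 𝔪)) :=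
    hf.moduleIsTorsionFree (un2_q 𝔪) (fun a b => map_smul (un2_q 𝔪) a b)
  have h4 : Module.Free ℤ (Additive (unV 𝔪)) := Module.free_of_finite_type_torsion_free'
  refine ⟨h1, h4, ?_⟩
  have h5 := LinearMap.finrank_le_finrank_of_injective hf
  rw [unitLattice_rank, un2_card σ hσ] at h5
  have h6 := (un2_li 𝔪 hm).fintype_card_le_finrank
  rw [Fintype.card_fin, un2_card σ hσ] at h6
  omega

theorem un_free {m : ℕ} (σ : Fin (m + 1) → (F →ₐ[K] ℂ)) (hσ : Function.Bijective σ)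
    (𝔪 : Ideal (𝓞 F)) (hm : 𝔪 ≠ ⊥)
    (htor : ∀ v ∈ unV 𝔪, ∀ k : ℕ, 0 < k → v ^ k = 1 → v = 1) :
    ∃ ε : Fin m → (𝓞 F)ˣ, (∀ i, ε i ∈ unV 𝔪) ∧
      ∀ v ∈ unV 𝔪, ∃! k : Fin m → ℤ, v = ∏ i, ε i ^ k i := by
  obtain ⟨h1, h2, h4⟩ := un2_rank σ hσ 𝔪 hm htor
  let b : Basis (Fin m) ℤ (Additive (unV 𝔪)) := finBasisOfFinrankEq ℤ _ h4
  have key : ∀ (v : unV 𝔪) (k : Fin m → ℤ), (v : (𝓞 F)ˣ) = ∏ i, (((b i).toMul : unV 𝔪) : (𝓞 F)ˣ) ^ k i ↔
      b.equivFun (Additive.ofMul v) = k := by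
    intro v k
    have e : Additive.toMul (∑ i, k i • b i) = ∏ i, (b i).toMul ^ k i := by
      rw [toMul_sum]
      rfl
    rw [← b.equivFun.symm.injective.eq_iff, LinearEquiv.symm_apply_apply, b.equivFun_symm_apply]
    constructor
    · intro h
      apply Additive.toMul.injective
      rw [e]
      apply Subtype.ext
      rw [toMul_ofMul, h]
      push_cast
      rfl
    · intro h
      have h' := congrArg (fun x => ((Additive.toMul x : unV 𝔪) : (𝓞 F)ˣ)) h
      simp only [toMul_ofMul, e] at h'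
      rw [h']
      push_cast
      rfl
  refine ⟨fun i => (((b i).toMul : unV 𝔪) : (𝓞 F)ˣ), fun i => ((b i).toMul : unV 𝔪).2, ?_⟩
  intro v hv
  refine ⟨b.equivFun (Additive.ofMul ⟨v, hv⟩), (key ⟨v, hv⟩ _).2 rfl, ?_⟩
  intro k hk
  exact ((key ⟨v, hv⟩ k).1 hk).symm

theorem un_det {m : ℕ} (σ : Fin (m + 1) → (F →ₐ[K] ℂ)) (hσ : Function.Bijective σ)
    (𝔪 : Ideal (𝓞 F)) (hm : 𝔪 ≠ ⊥) (ε : Fin m → (𝓞 F)ˣ)
    (hb : ∀ v ∈ unV 𝔪, ∃! k : Fin m → ℤ, v = ∏ i, ε i ^ k i) :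
    (regM σ (fun i => ((ε i : 𝓞 F) : F))).det ≠ 0 := by
  classical
  intro hdet
  obtain ⟨c, hc0, hc⟩ := Matrix.exists_mulVec_eq_zero_iff.2 hdet
  have hsum : ∑ j, c j = 0 := by
    have h := congrFun hc 0
    simpa [regM, Matrix.mulVec, dotProduct] using h
  have hεL : ∀ i, un2_L σ c (ε i) = 0 := by
    intro i
    have h := congrFun hc i.succ
    have h' : ∑ j, Real.log (‖σ j ((ε i : 𝓞 F) : F)‖ ^ 2) * c j = 0 := by
      simpa [regM, Matrix.mulVec, dotProduct] using h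
    rw [← h']
    unfold un2_L
    exact Finset.sum_congr rfl fun j _ => mul_comm _ _
  -- all units
  have hH : ∀ u : (𝓞 F)ˣ, un2_L σ c u = 0 := by
    intro u
    have h1 : u ^ (unV 𝔪).index ∈ unV 𝔪 := (unV 𝔪).pow_index_mem u
    obtain ⟨k, hk, _⟩ := hb _ h1
    have h2 : un2_H σ c (u ^ (unV 𝔪).index) = 1 := by
      rw [hk, map_prod]
      refine Finset.prod_eq_one fun i _ => ?_
      rw [map_zpow]
      have h5 : un2_H σ c (ε i) = 1 := by
        show Multiplicative.ofAdd (un2_L σ c (ε i)) = 1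
        rw [hεL]; rfl
      rw [h5, one_zpow]
    rw [map_pow] at h2
    have h4 : ((unV 𝔪).index : ℝ) * un2_L σ c u = 0 := by
      have h5 := congrArg Multiplicative.toAdd h2
      rw [toAdd_pow] at h5
      rw [← nsmul_eq_mul]
      exact h5
    rcases mul_eq_zero.1 h4 with h5 | h5
    · exact absurd (Nat.cast_eq_zero.1 h5) (un_fin 𝔪 hm)
    · exact h5
  -- the places
  obtain ⟨hbij, hcx⟩ := un_place σ hσ
  let e : Fin (m + 1) ≃ InfinitePlace F := Equiv.ofBijective _ hbij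
  have he : ∀ j (x : F), (e j) x = ‖σ j x‖ := fun j x => rfl
  have hmult : ∀ w : InfinitePlace F, w.mult = 2 := by
    intro w
    unfold InfinitePlace.mult
    rw [if_neg (InfinitePlace.not_isReal_iff_isComplex.2 (hcx w))]
  let w0 : InfinitePlace F := w₀
  let d : InfinitePlace F → ℝ := fun w => c (e.symm w)
  have hL : ∀ u : (𝓞 F)ˣ, ∑ w : InfinitePlace F, d w * (w.mult * Real.log (w ((u : 𝓞 F) : F))) = 0 := by
    intro u
    rw [← hH u]
    unfold un2_L
    rw [← Equiv.sum_comp e]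
    refine Finset.sum_congr rfl fun j _ => ?_
    show c (e.symm (e j)) * _ = _
    rw [e.symm_apply_apply, hmult, he, Real.log_pow]
  have hprod : ∀ u : (𝓞 F)ˣ, ∑ w : InfinitePlace F, (w.mult * Real.log (w ((u : 𝓞 F) : F)) : ℝ) = 0 :=
    fun u => sum_mult_mul_log u
  let ℓ : logSpace F →ₗ[ℝ] ℝ := ∑ w : {w : InfinitePlace F // w ≠ w₀}, (d w - d w0) • LinearMap.proj w
  have hℓa : ∀ x : logSpace F, ℓ x = ∑ w : {w : InfinitePlace F // w ≠ w₀}, (d w - d w0) * x w := by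
    intro x
    simp [ℓ]
  have hℓ : ∀ u : (𝓞 F)ˣ, ℓ (logEmbedding F (Additive.ofMul u)) = 0 := by
    intro u
    have h1 := hL u
    have h2 := hprod u
    have h5 : ∑ w : InfinitePlace F, (d w - d w0) * (w.mult * Real.log (w ((u : 𝓞 F) : F))) = 0 := by
      have : ∀ w : InfinitePlace F, (d w - d w0) * (w.mult * Real.log (w ((u : 𝓞 F) : F))) =
          d w * (w.mult * Real.log (w ((u : 𝓞 F) : F))) -
            d w0 * (w.mult * Real.log (w ((u : 𝓞 F) : F))) := fun w => by ring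
      rw [Finset.sum_congr rfl fun w _ => this w, Finset.sum_sub_distrib, h1, ← Finset.mul_sum, h2]
      ring
    rw [Fintype.sum_eq_add_sum_subtype_ne _ w0] at h5
    rw [hℓa]
    have h6 : (d w0 - d w0) * (w0.mult * Real.log (w0 ((u : 𝓞 F) : F))) = 0 := by ring
    rw [h6, zero_add] at h5
    exact h5
  have hzero : ℓ = 0 := by
    have h1 : (unitLattice F : Set (logSpace F)) ⊆ (LinearMap.ker ℓ : Set (logSpace F)) := by
      rintro x ⟨u, _, rfl⟩
      exact hℓ u.toMul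
    have h2 : Submodule.span ℝ (unitLattice F : Set (logSpace F)) ≤ LinearMap.ker ℓ :=
      Submodule.span_le.2 h1
    rw [unitLattice_span_eq_top] at h2
    exact LinearMap.ker_eq_top.1 (top_le_iff.1 h2)
  have hconst : ∀ w : InfinitePlace F, d w = d w0 := by
    intro w
    by_cases hw : w = w0
    · rw [hw]
    · have h1 : ℓ (Pi.single (⟨w, hw⟩ : {w : InfinitePlace F // w ≠ w₀}) 1) = 0 := by
        rw [hzero]; rfl
      rw [hℓa, Finset.sum_eq_single (⟨w, hw⟩ : {w : InfinitePlace F // w ≠ w₀})] at h1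
      · rw [Pi.single_eq_same, mul_one] at h1
        linarith
      · intro b _ hb'
        rw [Pi.single_eq_of_ne hb', mul_zero]
      · intro h
        exact absurd (Finset.mem_univ _) h
  have hcj : ∀ j, c j = d w0 := by
    intro j
    have := hconst (e j)
    show c j = d w0
    rw [← this]
    show c j = c (e.symm (e j))
    rw [e.symm_apply_apply]
  rw [Finset.sum_congr rfl fun j _ => hcj j, Finset.sum_const, nsmul_eq_mul] at hsum
  rcases mul_eq_zero.1 hsum with h | h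
  · rw [Finset.card_univ, Fintype.card_fin] at h
    exact absurd h (by positivity)
  · apply hc0
    funext j
    rw [hcj, h]
    rfl

end Pool.Agent.Lib.MP_1a91b9_nuT.Ell
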