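import Pool.Agent.Lib.MP_1a91b9_nuT.D6.Un
import Pool.Agent.Lib.MP_1a91b9_nuT.S6.Sm2
import Pool.Agent.Lib.MP_1a91b9_nuT.S6.Bs1

/-!
# D6, file Sm: the smoothing elements at a prime number `q`
-/

set_option autoImplicit false

namespace Pool.Agent.Lib.MP_1a91b9_nuT.Ell

variable [CD]

open NumberField Polynomial

universe u

variable {F : Type u} [Field F] [NumberField F] [Algebra K F] {q : ℕ}

theorem sm_elt (ε : 𝓞 K) (hε1 : IsCoprime (ε ^ Module.finrank K F - 1) (q : 𝓞 K)) (θ : 𝓞 F) (D : ℕ)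
    (hθ : ∀ z : 𝓞 F, ∃ P : (𝓞 K)[X], (D : 𝓞 F) * z = aeval θ P) (R : ℕ)
    (c : 𝓞 K) (hc1 : (R : 𝓞 K) ∣ c - 1) (hc2 : (q : 𝓞 K) ∣ c - ε)
    (hc3 : IsCoprime c ((q * R * D : ℕ) : 𝓞 K)) (b : 𝓞 K)
    (hb : Algebra.norm K ((algebraMap (𝓞 K) (𝓞 F) c + ((q * R * D : ℕ) : 𝓞 F) * θ : 𝓞 F) : F) =
      b) :
    Smooth q R (algebraMap (𝓞 K) (𝓞 F) c + ((q * R * D : ℕ) : 𝓞 F) * θ) b := by
  obtain ⟨M, hM⟩ : ∃ M : ℕ, M = q * R * D := ⟨_, rfl⟩
  obtain ⟨β, hβ⟩ : ∃ β : 𝓞 F, β = algebraMap (𝓞 K) (𝓞 F) c + (M : 𝓞 F) * θ := ⟨_, rfl⟩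
  obtain ⟨n, hn'⟩ : ∃ n : ℕ, n = Module.finrank K F := ⟨_, rfl⟩
  rw [← hM] at hc3 hb ⊢
  rw [← hβ] at hb ⊢
  rw [← hn'] at hε1
  have hcong : (M : 𝓞 K) ∣ b - c ^ n := by
    refine nf_cong M β (algebraMap (𝓞 K) (𝓞 F) c) b (c ^ n) hb ?_ ⟨θ, ?_⟩
    · have h1 : ((algebraMap (𝓞 K) (𝓞 F) c : 𝓞 F) : F) = algebraMap K F (c : K) := by
        exact (IsScalarTower.algebraMap_apply (𝓞 K) (𝓞 F) F c).symm.trans
          (IsScalarTower.algebraMap_apply (𝓞 K) K F c)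
      rw [h1, Algebra.norm_algebraMap, ← hn']
      exact (map_pow (algebraMap (𝓞 K) K) c _).symm
    · rw [hβ]; ring
  have hcop := sm_cop b c (M : 𝓞 K) n hcong hc3
  have h2M : (q : 𝓞 K) ∣ (M : 𝓞 K) := ⟨(R : 𝓞 K) * D, by rw [hM]; push_cast; ring⟩
  have h2b : (q : 𝓞 K) ∣ b - ε ^ n := by
    have h1 : (q : 𝓞 K) ∣ c ^ n - ε ^ n := hc2.trans (sub_dvd_pow_sub_pow _ _ _)
    have h2 := dvd_add (h2M.trans hcong) h1
    have h3 : b - c ^ n + (c ^ n - ε ^ n) = b - ε ^ n := by ring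
    rwa [h3] at h2
  refine ⟨?_, hb, ?_, hcop.of_isCoprime_of_dvd_right h2M, ?_⟩
  · obtain ⟨t, ht⟩ := hc1
    refine ⟨algebraMap (𝓞 K) (𝓞 F) t + q * D * θ, ?_⟩
    have h1 : algebraMap (𝓞 K) (𝓞 F) c - 1 = (R : 𝓞 F) * algebraMap (𝓞 K) (𝓞 F) t := by
      rw [← map_one (algebraMap (𝓞 K) (𝓞 F)), ← map_sub, ht, map_mul, map_natCast]
    have h2 : β - 1 = (algebraMap (𝓞 K) (𝓞 F) c - 1) + (M : 𝓞 F) * θ := by rw [hβ]; ring
    rw [h2, h1, hM]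
    push_cast
    ring
  · intro z
    obtain ⟨u, v, huv⟩ := hcop
    obtain ⟨P, hP⟩ := hθ z
    obtain ⟨s, hs⟩ := nf_dvd β b hb
    obtain ⟨v', hv'⟩ : ∃ v' : 𝓞 F, v' = algebraMap (𝓞 K) (𝓞 F) v := ⟨_, rfl⟩
    obtain ⟨c', hc'⟩ : ∃ c' : 𝓞 F, c' = algebraMap (𝓞 K) (𝓞 F) c := ⟨_, rfl⟩
    have e1 : 1 - v' * (M : 𝓞 F) = β * (algebraMap (𝓞 K) (𝓞 F) u * s) := by
      have h1 := congrArg (algebraMap (𝓞 K) (𝓞 F)) huv
      rw [map_add, map_mul, map_mul, map_one, map_natCast, hs, ← hv'] at h1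
      rw [← h1]
      ring
    have d1 : β ∣ 1 - v' * (M : 𝓞 F) := ⟨_, e1⟩
    have d2 : β ∣ θ - (-(c' * v')) := by
      have h1 : θ - (-(c' * v')) = (1 - v' * (M : 𝓞 F)) * θ + β * v' := by
        rw [hβ, ← hc']; ring
      rw [h1]
      exact dvd_add (d1.mul_right θ) (dvd_mul_right β v')
    have d3 : β ∣ aeval θ P - aeval (-(c' * v')) P := by
      have h1 := Polynomial.sub_dvd_eval_sub θ (-(c' * v')) (P.map (algebraMap (𝓞 K) (𝓞 F)))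
      rw [Polynomial.eval_map_algebraMap, Polynomial.eval_map_algebraMap] at h1
      exact d2.trans h1
    have e2 : aeval (-(c' * v')) P = algebraMap (𝓞 K) (𝓞 F) (P.eval (-(c * v))) := by
      have h1 : -(c' * v') = algebraMap (𝓞 K) (𝓞 F) (-(c * v)) := by
        rw [map_neg, map_mul, hc', hv']
      rw [h1, Polynomial.aeval_algebraMap_apply, Polynomial.coe_aeval_eq_eval]
    have d4 : β ∣ z - algebraMap (𝓞 K) (𝓞 F) (q * R * v * P.eval (-(c * v))) := by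
      have h1 : z - algebraMap (𝓞 K) (𝓞 F) (q * R * v * P.eval (-(c * v))) =
          (1 - v' * (M : 𝓞 F)) * z + q * R * v' * (aeval θ P - aeval (-(c' * v')) P) := by
        rw [← hP, e2, map_mul, map_mul, map_mul, map_natCast, map_natCast, ← hv', hM]
        push_cast
        ring
      rw [h1]
      exact dvd_add (d1.mul_right z) (d3.mul_left _)
    obtain ⟨w, hw⟩ := d4
    exact ⟨_, w, by rw [← hw]; ring⟩
  · obtain ⟨t, ht⟩ := h2b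
    have h1 : b - 1 = (ε ^ n - 1) + (q : 𝓞 K) * t := by rw [← ht]; ring
    rw [h1]
    exact hε1.add_mul_left_left t

theorem sm_c (hq : q.Prime) (ε : 𝓞 K) (hε : IsCoprime ε (q : 𝓞 K)) (R D : ℕ) (hR : R.Coprime q) (hD : 0 < D) :
    ∃ c₀ : 𝓞 K, ∀ c : 𝓞 K, ((q * R * D : ℕ) : 𝓞 K) ∣ c - c₀ →
      (R : 𝓞 K) ∣ c - 1 ∧ (q : 𝓞 K) ∣ c - ε ∧ IsCoprime c ((q * R * D : ℕ) : 𝓞 K) := by
  obtain ⟨j, D', hD', rfl⟩ := Nat.exists_eq_pow_mul_and_not_dvd hD.ne' q hq.one_lt.ne'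
  have hDq : D'.Coprime q := ((Nat.Prime.coprime_iff_not_dvd hq).2 hD').symm
  obtain ⟨e, he⟩ : ∃ e : ℕ, e = R * D' := ⟨_, rfl⟩
  have heq : e.Coprime q := by rw [he]; exact Nat.Coprime.mul_left hR hDq
  obtain ⟨x, y, hxy⟩ := kq_nat heq
  refine ⟨1 + (e : 𝓞 K) * x * (ε - 1), fun c hc => ?_⟩
  obtain ⟨t, ht⟩ := hc
  have hM : ((q * R * (q ^ j * D') : ℕ) : 𝓞 K) = (q : 𝓞 K) ^ (j + 1) * (e : 𝓞 K) := by
    rw [he]; push_cast; ring
  rw [hM] at ht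
  have hc : c = (1 + (e : 𝓞 K) * x * (ε - 1)) + (q : 𝓞 K) ^ (j + 1) * (e : 𝓞 K) * t := by
    rw [← ht]; ring
  have hc1 : (e : 𝓞 K) ∣ c - 1 := by
    refine ⟨(q : 𝓞 K) ^ (j + 1) * t + x * (ε - 1), ?_⟩
    rw [hc]
    ring
  have hc2 : (q : 𝓞 K) ∣ c - ε := by
    refine ⟨(q : 𝓞 K) ^ j * (e : 𝓞 K) * t - y * (ε - 1), ?_⟩
    rw [hc]
    linear_combination (ε - 1) * hxy
  refine ⟨dvd_trans ⟨(D' : 𝓞 K), by rw [he]; push_cast; ring⟩ hc1, hc2, ?_⟩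
  have hcop1 : IsCoprime c (e : 𝓞 K) := by
    obtain ⟨s, hs⟩ := hc1
    exact ⟨1, -s, by linear_combination hs⟩
  have hcop2 : IsCoprime c (q : 𝓞 K) := by
    obtain ⟨s, hs⟩ := hc2
    have h1 : c = ε + (q : 𝓞 K) * s := by rw [← hs]; ring
    rw [h1]
    exact hε.add_mul_left_left s
  rw [hM]
  exact (hcop2.pow_right).mul_right hcop1

theorem sm_exists (hq : q.Prime) (ε : 𝓞 K) (hε : IsCoprime ε (q : 𝓞 K))
    (hε1 : IsCoprime (ε ^ Module.finrank K F - 1) (q : 𝓞 K)) (R : ℕ) (hR : R.Coprime q) : ∃ (β : 𝓞 F) (b : 𝓞 K), Smooth q R β b := by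
  obtain ⟨θ, D, hD, hθ⟩ := sm_theta F
  obtain ⟨c₀, hc⟩ := sm_c hq ε hε R D hR hD
  obtain ⟨h1, h2, h3⟩ := hc c₀ (by simp)
  obtain ⟨b, hb⟩ := nf_int (algebraMap (𝓞 K) (𝓞 F) c₀ + ((q * R * D : ℕ) : 𝓞 F) * θ : 𝓞 F)
  exact ⟨_, b, sm_elt ε hε1 θ D hθ R c₀ h1 h2 h3 b hb⟩

theorem sm_gt (hq : q ≠ 1) (f : ℕ) (hf : 3 ≤ f) (R : ℕ) (h3 : f ∣ R) (β : 𝓞 F) (b : 𝓞 K) (h : Smooth q R β b) :
    2 ≤ ‖embK (b : K)‖ ^ 2 := by
  obtain ⟨k, hk, hdvd⟩ := kf_normInt b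
  rw [← hk]
  have h0 : k ≠ 0 := by
    rintro rfl
    have h1 : embK (b : K) = 0 := by
      rw [← norm_eq_zero, ← sq_eq_zero_iff, ← hk]; simp
    have h2 : b = 0 := by
      have h4 : (b : K) = 0 := (map_eq_zero embK).1 h1
      exact_mod_cast h4
    exact kq_ne hq h.c0 h2
  have h1 : k ≠ 1 := by
    rintro rfl
    have hu : IsUnit b := isUnit_of_dvd_one (by simpa using hdvd)
    have h5 : (f : 𝓞 K) ∣ b - 1 := by
      refine nf_cong f β 1 b 1 h.nrm (by simp) ?_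
      refine dvd_trans ?_ h.one
      obtain ⟨r, rfl⟩ := h3
      exact ⟨r, by push_cast; ring⟩
    have h6 := kf_unit' f hf b hu h5
    exact kq_ne hq h.c1 (by rw [h6, sub_self])
  have : 2 ≤ k := by omega
  exact_mod_cast this

theorem sm_lim' (θ : 𝓞 F) (M : ℕ) (hM : 0 < M) (c₀ ρ : 𝓞 K) (hρ0 : embK (ρ : K) ≠ 0)
    (b : ℕ → 𝓞 K)
    (hb : ∀ k : ℕ, Algebra.norm K ((algebraMap (𝓞 K) (𝓞 F) (c₀ + (M : 𝓞 K) * k * ρ) +
      (M : 𝓞 F) * θ : 𝓞 F) : F) = b k) :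
    Filter.Tendsto (fun k : ℕ => embK (b k : K) / (M * k * embK (ρ : K)) ^ (Module.finrank K F))
      Filter.atTop (nhds 1) := by
  obtain ⟨σ, hσ⟩ := nf_exists (F := F)
  have hMC : (M : ℂ) ≠ 0 := by exact_mod_cast hM.ne'
  have h1 : ∀ k : ℕ, embK (b k : K) / (M * k * embK (ρ : K)) ^ (Module.finrank K F) =
      ∏ j, ((embK (c₀ : K) + M * σ j (θ : F)) + M * k * embK (ρ : K)) / (M * k * embK (ρ : K)) := by
    intro k
    rw [Finset.prod_div_distrib, Finset.prod_const, Finset.card_univ, Fintype.card_fin]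
    congr 1
    have h2 := nf_prod σ hσ
      ((algebraMap (𝓞 K) (𝓞 F) (c₀ + (M : 𝓞 K) * k * ρ) + (M : 𝓞 F) * θ : 𝓞 F) : F)
    rw [NF, hb k] at h2
    rw [h2]
    refine Finset.prod_congr rfl fun j _ => ?_
    have h3 : ((algebraMap (𝓞 K) (𝓞 F) (c₀ + (M : 𝓞 K) * k * ρ) + (M : 𝓞 F) * θ : 𝓞 F) : F) =
        algebraMap K F ((c₀ : K) + (M : K) * k * (ρ : K)) + (M : F) * (θ : F) := by
      simp only [map_add, map_mul, map_natCast]
      rfl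
    rw [h3, map_add, AlgHom.commutes, algebraMap_eq, map_mul, map_natCast]
    simp only [map_add, map_mul, map_natCast]
    ring
  simp_rw [h1]
  rw [show (1 : ℂ) = ∏ j : Fin (Module.finrank K F), (1 : ℂ) by simp]
  refine tendsto_finsetProd _ fun j _ => ?_
  set A : ℂ := embK (c₀ : K) + M * σ j (θ : F) with hA
  have h4 : Filter.Tendsto (fun k : ℕ => A / (M * embK (ρ : K)) * ((k : ℂ)⁻¹) + 1) Filter.atTop
      (nhds (A / (M * embK (ρ : K)) * 0 + 1)) :=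
    (tendsto_const_nhds.mul (tendsto_inv_atTop_nhds_zero_nat (𝕜 := ℂ))).add tendsto_const_nhds
  rw [mul_zero, zero_add] at h4
  refine h4.congr' ?_
  filter_upwards [Filter.eventually_gt_atTop 0] with k hk
  have hkC : (k : ℂ) ≠ 0 := by exact_mod_cast hk.ne'
  field_simp

/-- the limit of the second term -/
theorem sm2_main' (n : ℕ) (hn : n ≠ 0) (M : ℝ) (hMR : 0 < M) (ρ : ℂ) (hρ : ‖ρ‖ = 1) (τ : ℝ)
    (x : ℕ → ℂ) (hx0 : ∀ k, x k ≠ 0)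
    (hx : Filter.Tendsto (fun k : ℕ => x k / ((M : ℂ) * k * ρ) ^ n) Filter.atTop (nhds 1))
    (hT : ∀ k, (starRingEnd ℂ) (x k) * Complex.exp (-2 * Complex.I * τ * Real.log ‖x k‖) = ‖x k‖) :
    τ = 0 ∧ ρ ^ n = 1 := by
  have hρ0 : ρ ≠ 0 := by
    rw [← norm_ne_zero_iff, hρ]; exact one_ne_zero
  have hMC : (M : ℂ) ≠ 0 := by exact_mod_cast hMR.ne'
  -- norms
  have h2 : Filter.Tendsto (fun k : ℕ => ‖x k‖ / (M * k : ℝ) ^ n) Filter.atTop (nhds 1) := by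
    have := hx.norm
    rw [norm_one] at this
    refine this.congr fun k => ?_
    rw [norm_div, norm_pow, norm_mul, norm_mul, hρ, mul_one, Complex.norm_real,
      Complex.norm_natCast, Real.norm_of_nonneg hMR.le]
  have h3 : Filter.Tendsto (fun k : ℕ => (starRingEnd ℂ) (x k) /
      ((M : ℂ) * k * (starRingEnd ℂ) ρ) ^ n) Filter.atTop (nhds 1) := by
    have := (Complex.continuous_conj.tendsto 1).comp hx
    rw [map_one] at this
    refine this.congr fun k => ?_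
    simp only [Function.comp_apply, map_div₀, map_pow, map_mul, map_natCast, Complex.conj_ofReal]
  have hcρ : (starRingEnd ℂ) ρ ≠ 0 := (_root_.map_ne_zero _).2 hρ0
  -- the quotient
  have h4 : Filter.Tendsto (fun k : ℕ => (‖x k‖ : ℂ) / (starRingEnd ℂ) (x k)) Filter.atTop
      (nhds ((((starRingEnd ℂ) ρ) ^ n)⁻¹)) := by
    have h5 : Filter.Tendsto (fun k : ℕ => ((‖x k‖ / (M * k : ℝ) ^ n : ℝ) : ℂ)) Filter.atTop
        (nhds ((1 : ℝ) : ℂ)) := (Complex.continuous_ofReal.tendsto 1).comp h2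
    have h6 := (h5.div h3 one_ne_zero).mul_const ((((starRingEnd ℂ) ρ) ^ n)⁻¹)
    rw [Complex.ofReal_one, div_one, one_mul] at h6
    refine h6.congr' ?_
    filter_upwards [Filter.eventually_gt_atTop 0] with k hk
    have hkC : (k : ℂ) ≠ 0 := by exact_mod_cast hk.ne'
    have hxk : (starRingEnd ℂ) (x k) ≠ 0 := (_root_.map_ne_zero _).2 (hx0 k)
    simp only [Pi.div_apply]
    push_cast
    field_simp
    ring
  have h5 : Filter.Tendsto (fun k : ℕ => Complex.exp (2 * Complex.I * τ *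
      ((Real.log (‖x k‖ / (M * k : ℝ) ^ n) + n * Real.log M : ℝ) : ℂ))) Filter.atTop
      (nhds (Complex.exp (2 * Complex.I * τ * ((n * Real.log M : ℝ) : ℂ)))) := by
    have h6 : Filter.Tendsto (fun k : ℕ => Real.log (‖x k‖ / (M * k : ℝ) ^ n) + n * Real.log M)
        Filter.atTop (nhds (n * Real.log M)) := by
      have := ((Real.continuousAt_log one_ne_zero).tendsto.comp h2).add_const (n * Real.log M)
      rw [Real.log_one, zero_add] at this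
      exact this
    have h7 : Continuous fun t : ℝ => Complex.exp (2 * Complex.I * τ * (t : ℂ)) := by
      fun_prop
    exact (h7.tendsto _).comp h6
  have h6 : Filter.Tendsto (fun k : ℕ => Complex.exp (-2 * Complex.I * ((τ * n : ℝ) : ℂ) *
      Real.log k)) Filter.atTop (nhds ((((starRingEnd ℂ) ρ) ^ n)⁻¹ *
        Complex.exp (2 * Complex.I * τ * ((n * Real.log M : ℝ) : ℂ)))) := by
    refine (h4.mul h5).congr' ?_
    filter_upwards [Filter.eventually_gt_atTop 0] with k hk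
    have hkR : (0 : ℝ) < k := by exact_mod_cast hk
    have hxk : (starRingEnd ℂ) (x k) ≠ 0 := (_root_.map_ne_zero _).2 (hx0 k)
    have hxn : ‖x k‖ ≠ 0 := norm_ne_zero_iff.2 (hx0 k)
    have h8 : (‖x k‖ : ℂ) / (starRingEnd ℂ) (x k) =
        Complex.exp (-2 * Complex.I * τ * Real.log ‖x k‖) := by
      rw [div_eq_iff hxk, mul_comm]; exact (hT k).symm
    rw [h8, ← Complex.exp_add]
    congr 1
    have h9 : Real.log (‖x k‖ / (M * k : ℝ) ^ n) + n * Real.log M =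
        Real.log ‖x k‖ - n * Real.log k := by
      rw [Real.log_div hxn (by positivity), Real.log_pow, Real.log_mul hMR.ne' hkR.ne']
      ring
    rw [h9, Complex.ofReal_sub, Complex.ofReal_mul, Complex.ofReal_mul, Complex.ofReal_natCast]
    ring
  have h7 := sm_log (τ * n) _ h6 (mul_ne_zero (inv_ne_zero (pow_ne_zero _ hcρ))
    (Complex.exp_ne_zero _))
  have h8 : τ = 0 := by
    rcases mul_eq_zero.1 h7 with h | h
    · exact h
    · exact absurd (by exact_mod_cast h) hn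
  refine ⟨h8, ?_⟩
  have h9 : Filter.Tendsto (fun k : ℕ => (‖x k‖ : ℂ) / (starRingEnd ℂ) (x k)) Filter.atTop
      (nhds 1) := by
    refine tendsto_const_nhds.congr fun k => ?_
    have hxk : (starRingEnd ℂ) (x k) ≠ 0 := (_root_.map_ne_zero _).2 (hx0 k)
    have := hT k
    rw [h8] at this
    simp only [Complex.ofReal_zero, mul_zero, zero_mul, Complex.exp_zero, mul_one] at this
    rw [← this, div_self hxk]
  have h10 := tendsto_nhds_unique h4 h9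
  rw [inv_eq_one, ← map_pow] at h10
  have h11 := congrArg (starRingEnd ℂ) h10
  rwa [Complex.conj_conj, map_one] at h11

/-- There is `ρ` in `𝓞 K` such that `ρ / |ρ|` is not a root of unity: `ρ = 1 + d om`, where `d` is
the discriminant. -/
theorem exists_rho : ∃ ρ : 𝓞 K, embK (ρ : K) ≠ 0 ∧ ∀ n : ℕ, n ≠ 0 →
    (embK (ρ : K) / (‖embK (ρ : K)‖ : ℂ)) ^ n ≠ 1 := by
  obtain ⟨d, hd⟩ : ∃ d : ℤ, d = CD.tr ^ 2 - 4 * CD.nm := ⟨_, rfl⟩
  have hd0 : d < 0 := by have := disc_neg; omega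
  have hd3 : d ≤ -3 := by
    have h4 : CD.tr ^ 2 % 4 = 0 ∨ CD.tr ^ 2 % 4 = 1 := by
      rcases Int.even_or_odd' CD.tr with ⟨k, hk | hk⟩
      · left
        rw [hk]
        ring_nf
        omega
      · right
        rw [hk]
        ring_nf
        omega
    omega
  obtain ⟨N, hN⟩ : ∃ N : ℤ, N = 1 + CD.tr * d + CD.nm * d ^ 2 := ⟨_, rfl⟩
  obtain ⟨T, hT⟩ : ∃ T : ℤ, T = 2 + CD.tr * d := ⟨_, rfl⟩
  have hNT : 4 * N = T ^ 2 - d ^ 3 := by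
    rw [hN, hT]
    linear_combination (d ^ 2) * hd
  have hN2 : 2 ≤ N := by nlinarith [sq_nonneg T, sq_nonneg (d + 3), sq_nonneg d]
  obtain ⟨u, hu⟩ : ∃ u : ℤ, u = CD.tr + CD.nm * d := ⟨_, rfl⟩
  have hbez : N * (N ^ 2 - 3 * N * d * u + 3 * d ^ 2 * u ^ 2 + 4 * u ^ 3) - T * (T * u ^ 3) = 1 := by
    have e1 : N - d * u = 1 := by rw [hN, hu]; ring
    have e2 : (N - d * u) ^ 3 = 1 := by rw [e1]; norm_num
    linear_combination e2 + u ^ 3 * hNT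
  obtain ⟨ρ, hρ⟩ : ∃ ρ : 𝓞 K, ρ = ((1 : ℤ) : 𝓞 K) + ((d : ℤ) : 𝓞 K) * omO := ⟨_, rfl⟩
  obtain ⟨ρ', hρ'⟩ : ∃ ρ' : 𝓞 K, ρ' = 1 + (d : 𝓞 K) * ((CD.tr : 𝓞 K) - omO) := ⟨_, rfl⟩
  have hNρ : ‖embK (ρ : K)‖ ^ 2 = (N : ℝ) := by
    rw [hρ, kf_emb, kf_norm, hN]
    push_cast
    ring
  have hprod : ρ * ρ' = (N : 𝓞 K) := by
    rw [hρ, hρ', hN]
    push_cast
    linear_combination (-(d : 𝓞 K) ^ 2) * omO_quad
  have hsum : ρ + ρ' = (T : 𝓞 K) := by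
    rw [hρ, hρ', hT]
    push_cast
    ring
  have hbez' := congrArg (Int.cast : ℤ → 𝓞 K) hbez
  push_cast at hbez'
  have hcop : IsCoprime ρ ρ' := by
    refine ⟨((N : 𝓞 K) ^ 2 - 3 * N * d * u + 3 * d ^ 2 * u ^ 2 + 4 * u ^ 3) * ρ' - T * u ^ 3,
      -(T * u ^ 3), ?_⟩
    linear_combination hbez' + ((N : 𝓞 K) ^ 2 - 3 * N * d * u + 3 * d ^ 2 * u ^ 2 + 4 * u ^ 3) *
      hprod - (T * u ^ 3 : 𝓞 K) * hsum
  have hNR : (2 : ℝ) ≤ N := by exact_mod_cast hN2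
  have hr0' : ‖embK (ρ : K)‖ ≠ 0 := by
    intro h1
    rw [h1] at hNρ
    norm_num at hNρ
    rw [← hNρ] at hNR
    norm_num at hNR
  have hr0 : (‖embK (ρ : K)‖ : ℂ) ≠ 0 := by exact_mod_cast hr0'
  have hρe : embK (ρ : K) ≠ 0 := fun h => hr0' (by rw [h, norm_zero])
  have hρ0 : ρ ≠ 0 := by
    intro h0
    refine hρe ?_
    rw [h0]
    have e : ((0 : 𝓞 K) : K) = 0 := map_zero (algebraMap (𝓞 K) K)
    rw [e, map_zero]
  refine ⟨ρ, hρe, fun n hn h => ?_⟩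
  have hNC : (‖embK (ρ : K)‖ : ℂ) ^ 2 = (N : ℂ) := by exact_mod_cast congrArg (fun x : ℝ => (x : ℂ)) hNρ
  rw [div_pow, div_eq_one_iff_eq (pow_ne_zero _ hr0)] at h
  have hsq : embK (ρ : K) ^ (2 * n) = (N : ℂ) ^ n := by
    rw [two_mul, pow_add, h, ← mul_pow, ← pow_two, hNC]
  have h1 : ρ ^ (2 * n) = (N : 𝓞 K) ^ n := by
    apply RingOfIntegers.ext
    apply embK.injective
    have e1 : embK ((ρ ^ (2 * n) : 𝓞 K) : K) = embK (ρ : K) ^ (2 * n) := by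
      rw [← map_pow]
      exact congrArg embK (map_pow (algebraMap (𝓞 K) K) ρ (2 * n))
    have e2 : embK (((N : 𝓞 K) ^ n : 𝓞 K) : K) = (N : ℂ) ^ n := by
      change embK (algebraMap (𝓞 K) K ((N : 𝓞 K) ^ n)) = _
      rw [map_pow, map_pow, map_intCast, map_intCast]
    exact e1.trans (hsq.trans e2.symm)
  have h2 : ρ ^ n = ρ' ^ n := by
    have h3 : ρ ^ n * ρ ^ n = ρ ^ n * ρ' ^ n := by
      rw [← pow_add, ← two_mul, h1, ← mul_pow, hprod]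
    exact mul_left_cancel₀ (pow_ne_zero _ hρ0) h3
  have h3 : IsCoprime (ρ ^ n) (ρ' ^ n) := hcop.pow
  rw [← h2, isCoprime_self] at h3
  have h4 : IsUnit ρ := (isUnit_pow_iff hn).1 h3
  have h5 : IsUnit ρ' := by
    rw [h2] at h3
    exact (isUnit_pow_iff hn).1 h3
  obtain ⟨m, hm⟩ : ∃ m : ℕ, (m : ℤ) = N := ⟨N.toNat, Int.toNat_of_nonneg (by omega)⟩
  have h6 : IsUnit ((m : ℕ) : 𝓞 K) := by
    have h7 := h4.mul h5
    rw [hprod, ← hm] at h7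
    exact_mod_cast h7
  exact kq_zero (q := m) (by rintro rfl; norm_num at hm; omega) (isCoprime_zero_left.2 h6)

theorem sm_var (hq : q.Prime) (ε : 𝓞 K) (hε : IsCoprime ε (q : 𝓞 K))
    (hε1 : IsCoprime (ε ^ Module.finrank K F - 1) (q : 𝓞 K)) (f : ℕ) (hf : 3 ≤ f) (R : ℕ)
    (hR : R.Coprime q) (h3 : f ∣ R) (s₀ : ℂ) :
    ∃ (β : 𝓞 F) (b : 𝓞 K), Smooth q R β b ∧
      1 - (‖embK (b : K)‖ ^ 2 : ℝ) * (starRingEnd ℂ) (embK (b : K)) *
        (‖embK (b : K)‖ : ℂ) ^ (-2 * s₀) ≠ 0 := by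
  by_contra hcon
  push Not at hcon
  obtain ⟨θ, D, hD, hθ⟩ := sm_theta F
  obtain ⟨c₀, hc⟩ := sm_c hq ε hε R D hR hD
  set M : ℕ := q * R * D with hM
  have hR0 : 0 < R := by
    rcases Nat.eq_zero_or_pos R with h | h
    · rw [h, Nat.coprime_zero_left] at hR
      exact absurd hR hq.one_lt.ne'
    · exact h
  have hM0 : 0 < M := by
    have := hq.pos
    positivity
  obtain ⟨ρ, hρ0, hρ1'⟩ := exists_rho
  have hc' : ∀ j : ℕ, (M : 𝓞 K) ∣ (c₀ + (M : 𝓞 K) * j * ρ) - c₀ := fun j =>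
    ⟨j * ρ, by ring⟩
  choose b hb using fun j : ℕ =>
    nf_int (algebraMap (𝓞 K) (𝓞 F) (c₀ + (M : 𝓞 K) * j * ρ) + (M : 𝓞 F) * θ : 𝓞 F)
  have hsm : ∀ j : ℕ, Smooth q R
      (algebraMap (𝓞 K) (𝓞 F) (c₀ + (M : 𝓞 K) * j * ρ) + (M : 𝓞 F) * θ : 𝓞 F) (b j) := by
    intro j
    obtain ⟨h1, h2, h4⟩ := hc _ (hc' j)
    exact sm_elt ε hε1 θ D hθ R _ h1 h2 h4 (b j) (hb j)
  have hgt : ∀ j, 2 ≤ ‖embK (b j : K)‖ ^ 2 := fun j =>
    sm_gt hq.one_lt.ne' f hf R h3 _ _ (hsm j)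
  have hfr : Module.finrank K F ≠ 0 := by
    have := nfa_finite (F := F)
    exact (Module.finrank_pos (R := K) (M := F)).ne'
  have hρ1 := hρ1' (Module.finrank K F) hfr
  have hρn : ‖embK (ρ : K)‖ ≠ 0 := norm_ne_zero_iff.2 hρ0
  have hρC : (‖embK (ρ : K)‖ : ℂ) ≠ 0 := by exact_mod_cast hρn
  have hlim := sm_lim' θ M hM0 c₀ ρ hρ0 b hb
  have hT := fun j => sm2_term _ (hgt j) s₀ (hcon _ _ (hsm j))
  have h6 := sm2_main' (Module.finrank K F) hfr (M * ‖embK (ρ : K)‖)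
    (mul_pos (by exact_mod_cast hM0) (norm_pos_iff.2 hρ0))
    (embK (ρ : K) / (‖embK (ρ : K)‖ : ℂ)) (by
      rw [norm_div, Complex.norm_real, norm_norm, div_self hρn])
    s₀.im (fun j => embK (b j : K)) (fun j h => by
      have := hgt j
      rw [h] at this
      norm_num at this) (by
      refine hlim.congr fun k => ?_
      congr 2
      push_cast
      field_simp) (fun j => (hT j).2)
  exact hρ1 h6.2

end Pool.Agent.Lib.MP_1a91b9_nuT.Ell
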